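import Mathlib

set_option autoImplicit false
set_option synthInstance.maxHeartbeats 400000

/-!
# Bounded extensions of the functionals of a bounded minimal sequence
-/

namespace Q41.BE

open Filter Topology

variable {𝕜 E : Type*} [RCLike 𝕜] [NormedAddCommGroup E] [NormedSpace 𝕜 E]

/-- Functionals of a bounded minimal sequence converge pointwise to zero. -/
theorem tendsto_zero (F : Submodule 𝕜 E) (x : ℕ → F) (hx : Dense ((Submodule.span 𝕜
    (Set.range x) : Submodule 𝕜 F) : Set F)) (φ : ℕ → StrongDual 𝕜 F)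
    (hφ : ∀ i j, i ≠ j → φ i (x j) = 0) {M : ℝ} (hM : ∀ n, ‖φ n‖ ≤ M) (a : F) :
    Tendsto (fun n => φ n a) atTop (𝓝 0) := by
  have hM0 : 0 ≤ M := (norm_nonneg _).trans (hM 0)
  have hfin : ∀ s ∈ Submodule.span 𝕜 (Set.range x), ∃ N, ∀ n, N ≤ n → φ n s = 0 := by
    intro s hs
    induction hs using Submodule.span_induction with
    | mem y hy =>
      obtain ⟨m, rfl⟩ := hy
      exact ⟨m + 1, fun n hn => hφ n m (by omega)⟩
    | zero => exact ⟨0, fun n _ => map_zero _⟩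
    | add y z _ _ h1 h2 =>
      obtain ⟨N1, h1⟩ := h1
      obtain ⟨N2, h2⟩ := h2
      exact ⟨max N1 N2, fun n hn => by
        rw [map_add, h1 n (le_of_max_le_left hn), h2 n (le_of_max_le_right hn), add_zero]⟩
    | smul c y _ h1 =>
      obtain ⟨N1, h1⟩ := h1
      exact ⟨N1, fun n hn => by rw [map_smul, h1 n hn, smul_zero]⟩
  rw [Metric.tendsto_atTop]
  intro ε hε
  obtain ⟨s, hs, hsa⟩ := hx.exists_dist_lt a (ε := ε / (M + 1)) (by positivity)
  obtain ⟨N, hN⟩ := hfin s hs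
  refine ⟨N, fun n hn => ?_⟩
  rw [dist_zero_right]
  have h1 : φ n a = φ n (a - s) := by rw [map_sub, hN n hn, sub_zero]
  rw [h1]
  have h2 : ‖φ n (a - s)‖ ≤ ‖φ n‖ * ‖a - s‖ := (φ n).le_opNorm _
  rw [dist_eq_norm] at hsa
  have h3 : ‖φ n‖ * ‖a - s‖ ≤ M * ‖a - s‖ := mul_le_mul_of_nonneg_right (hM n) (norm_nonneg _)
  have h4 : (M + 1) * ‖a - s‖ < ε := by
    have := mul_lt_mul_of_pos_left hsa (by linarith : 0 < M + 1)
    rwa [mul_div_cancel₀ _ (by linarith : M + 1 ≠ 0)] at this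
  nlinarith [norm_nonneg (a - s)]

/-- Uniform bound for the functionals `x + z ↦ φ n x` on `F ⊕ Z`, `Z` finite-dimensional. -/
theorem eventually_bound (F : Submodule 𝕜 E) (hF : IsClosed (F : Set E)) (Z : Submodule 𝕜 E)
    [FiniteDimensional 𝕜 Z] (hFZ : Disjoint F Z) (φ : ℕ → StrongDual 𝕜 F) {M : ℝ} (hM1 : 1 ≤ M)
    (hM : ∀ n, ‖φ n‖ ≤ M) (hlim : ∀ a : F, Tendsto (fun n => φ n a) atTop (𝓝 0)) :
    ∃ N, ∀ n, N ≤ n → ∀ (a : F) (z : Z), ‖φ n a‖ ≤ 3 * M * ‖(a : E) + z‖ := by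
  -- the quotient norm dominates the norm of `Z`
  obtain ⟨K, hK0, hK⟩ : ∃ K : ℝ, 0 < K ∧ ∀ (a : F) (z : Z), ‖z‖ ≤ K * ‖(a : E) + z‖ := by
    have : IsClosed (F.toAddSubgroup : Set E) := hF
    let f : Z →ₗ[𝕜] (E ⧸ F) := F.mkQ.comp Z.subtype
    have hker : LinearMap.ker f = ⊥ := by
      rw [LinearMap.ker_eq_bot']
      intro z hz
      have h1 : (z : E) ∈ F := by
        have : F.mkQ (z : E) = 0 := hz
        rwa [Submodule.mkQ_apply, Submodule.Quotient.mk_eq_zero] at this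
      have h2 := Submodule.disjoint_def.1 hFZ (z : E) h1 z.2
      exact Subtype.ext h2
    obtain ⟨K, hK0, hK⟩ := f.exists_antilipschitzWith hker
    refine ⟨K, by exact_mod_cast hK0, fun a z => ?_⟩
    have h1 := hK.le_mul_dist z 0
    rw [dist_zero_right, map_zero, dist_zero_right] at h1
    refine h1.trans ?_
    apply mul_le_mul_of_nonneg_left _ K.coe_nonneg
    have h2 : f z = F.mkQ ((a : E) + z) := by
      rw [map_add]
      have : F.mkQ (a : E) = 0 := by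
        rw [Submodule.mkQ_apply, Submodule.Quotient.mk_eq_zero]; exact a.2
      rw [this, zero_add]
      rfl
    rw [h2]
    exact Submodule.Quotient.norm_mk_le F _
  -- the compact set of the relevant `z`
  let s : Set Z := {z | ∃ a : F, ‖(a : E) + z‖ ≤ 1}
  have hs : TotallyBounded s := by
    have hb : Bornology.IsBounded s := by
      rw [isBounded_iff_forall_norm_le]
      refine ⟨K, fun z hz => ?_⟩
      obtain ⟨a, ha⟩ := hz
      calc ‖z‖ ≤ K * ‖(a : E) + z‖ := hK a z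
        _ ≤ K * 1 := mul_le_mul_of_nonneg_left ha hK0.le
        _ = K := mul_one K
    have : ProperSpace Z := FiniteDimensional.proper 𝕜 Z
    exact hb.isCompact_closure.totallyBounded.subset subset_closure
  obtain ⟨t, hts, htf, hcov⟩ := Metric.finite_approx_of_totallyBounded hs (1 / 4) (by norm_num)
  have hts' : ∀ y : Z, ∃ a : F, y ∈ t → ‖(a : E) + y‖ ≤ 1 := by
    intro y
    by_cases hy : y ∈ t
    · obtain ⟨a, ha⟩ := hts hy
      exact ⟨a, fun _ => ha⟩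
    · exact ⟨0, fun h => absurd h hy⟩
  choose g hg using hts'
  have hN : ∃ N, ∀ n, N ≤ n → ∀ y ∈ t, ‖φ n (g y)‖ ≤ 1 / 2 := by
    have h1 : ∀ y ∈ t, ∀ᶠ n in atTop, ‖φ n (g y)‖ ≤ 1 / 2 := by
      intro y _
      have h2 := (hlim (g y)).norm
      rw [norm_zero] at h2
      exact (h2.eventually_lt_const (by norm_num : (0 : ℝ) < 1 / 2)).mono fun n hn => hn.le
    have h2 := (htf.eventually_all (l := atTop) (p := fun y n => ‖φ n (g y)‖ ≤ 1 / 2)).2 h1
    exact eventually_atTop.1 h2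
  obtain ⟨N, hN⟩ := hN
  refine ⟨N, fun n hn => ?_⟩
  have hunit : ∀ (a : F) (z : Z), ‖(a : E) + z‖ ≤ 1 → ‖φ n a‖ ≤ 3 * M := by
    intro a z haz
    obtain ⟨y, hy, hyz⟩ : ∃ y ∈ t, z ∈ Metric.ball y (1 / 4) := by
      have := hcov (show z ∈ s from ⟨a, haz⟩)
      simpa using this
    have h1 := hg y hy
    have h2 := hN n hn y hy
    rw [Metric.mem_ball, dist_eq_norm] at hyz
    have h3 : ‖a - g y‖ ≤ 2 + 1 / 4 := by
      have e : ((a - g y : F) : E) = ((a : E) + z) - ((g y : E) + y) - ((z - y : Z) : E) := by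
        push_cast
        abel
      have e' : ‖a - g y‖ = ‖((a - g y : F) : E)‖ := rfl
      rw [e', e]
      have h4 := norm_sub_le (((a : E) + z) - ((g y : E) + y)) ((z - y : Z) : E)
      have h5 := norm_sub_le ((a : E) + z) ((g y : E) + y)
      have e2 : ‖((z - y : Z) : E)‖ = ‖z - y‖ := rfl
      rw [e2] at h4
      linarith
    have h4 : φ n a = φ n (g y) + φ n (a - g y) := by rw [← map_add]; congr 1; abel
    have h5 : ‖φ n (a - g y)‖ ≤ M * (2 + 1 / 4) := by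
      refine ((φ n).le_opNorm _).trans ?_
      exact mul_le_mul (hM n) h3 (norm_nonneg _) (by linarith)
    rw [h4]
    refine (norm_add_le _ _).trans ?_
    linarith
  intro a z
  rcases eq_or_lt_of_le (norm_nonneg ((a : E) + z)) with h | h
  · have h1 : (a : E) + z = 0 := norm_eq_zero.1 h.symm
    have h2 : (a : E) ∈ Z := by
      rw [eq_neg_of_add_eq_zero_left h1]
      exact Z.neg_mem z.2
    have h3 : a = 0 := Subtype.ext (Submodule.disjoint_def.1 hFZ (a : E) a.2 h2)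
    rw [h3, map_zero, norm_zero]
    positivity
  · set c := ‖(a : E) + z‖ with hc
    have h1 := hunit (((c⁻¹ : ℝ) : 𝕜) • a) (((c⁻¹ : ℝ) : 𝕜) • z) (by
      rw [Submodule.coe_smul, Submodule.coe_smul, ← smul_add, norm_smul, RCLike.norm_ofReal,
        abs_of_pos (inv_pos.2 h), ← hc, inv_mul_cancel₀ h.ne'])
    rw [(φ n).map_smul, norm_smul, RCLike.norm_ofReal, abs_of_pos (inv_pos.2 h),
      inv_mul_le_iff₀ h] at h1
    linarith

/-- Extension of `φ` by zero on `Z` with control of the norm. -/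
theorem exists_ext (F Z Z' : Submodule 𝕜 E) (hc : IsCompl F Z) (hZ : Z' ≤ Z)
    (φ : StrongDual 𝕜 F) {C : ℝ} (hC : 0 ≤ C)
    (hb : ∀ (a : F) (z : Z'), ‖φ a‖ ≤ C * ‖(a : E) + z‖) :
    ∃ f : StrongDual 𝕜 E, (∀ a : F, f a = φ a) ∧ (∀ z ∈ Z', f z = 0) ∧ ‖f‖ ≤ C := by
  let P := F.projectionOnto Z hc
  let p : Submodule 𝕜 E := F ⊔ Z'
  let ψ : p →ₗ[𝕜] 𝕜 := (φ : F →ₗ[𝕜] 𝕜).comp (P.comp p.subtype)
  have hψ : ∀ w : p, ‖ψ w‖ ≤ C * ‖w‖ := by
    rintro ⟨w, hw⟩
    obtain ⟨a, ha, z, hz, rfl⟩ := Submodule.mem_sup.1 hw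
    have h1 : P (a + z) = ⟨a, ha⟩ := by
      rw [map_add]
      have h2 : P a = ⟨a, ha⟩ := Submodule.projectionOnto_apply_left hc ⟨a, ha⟩
      have h3 : P z = 0 := Submodule.projectionOnto_apply_right hc ⟨z, hZ hz⟩
      rw [h2, h3, add_zero]
    change ‖φ (P (a + z))‖ ≤ C * ‖a + z‖
    rw [h1]
    exact hb ⟨a, ha⟩ ⟨z, hz⟩
  obtain ⟨f, hf, hn⟩ := exists_extension_norm_eq p (ψ.mkContinuous C hψ)
  refine ⟨f, fun a => ?_, fun z hz => ?_, ?_⟩
  · have h1 := hf ⟨a, Submodule.mem_sup_left a.2⟩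
    rw [h1]
    change φ (P (a : E)) = φ a
    congr 1
    exact Submodule.projectionOnto_apply_left hc a
  · have h1 := hf ⟨z, Submodule.mem_sup_right hz⟩
    rw [h1]
    change φ (P z) = 0
    have h3 : P z = 0 := Submodule.projectionOnto_apply_right hc ⟨z, hZ hz⟩
    rw [h3, map_zero]
  · rw [hn]
    exact LinearMap.mkContinuous_norm_le _ hC _

/-- The closed linear span of a sequence. -/
abbrev closedSpan (𝕜 : Type*) {E : Type*} [RCLike 𝕜] [NormedAddCommGroup E] [NormedSpace 𝕜 E]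
    (x : ℕ → E) : Submodule 𝕜 E :=
  (Submodule.span 𝕜 (Set.range x)).topologicalClosure

theorem mem_closedSpan (x : ℕ → E) (n : ℕ) : x n ∈ closedSpan 𝕜 x :=
  Submodule.le_topologicalClosure _ (Submodule.subset_span ⟨n, rfl⟩)

theorem dense_closedSpan (x : ℕ → E) :
    Dense ((Submodule.span 𝕜 (Set.range fun n => (⟨x n, mem_closedSpan x n⟩ : closedSpan 𝕜 x)) :
      Submodule 𝕜 (closedSpan 𝕜 x)) : Set (closedSpan 𝕜 x)) := by
  rw [Metric.dense_iff]
  intro a ε hε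
  have h1 : (a : E) ∈ closure ((Submodule.span 𝕜 (Set.range x) : Submodule 𝕜 E) : Set E) := a.2
  obtain ⟨s, hs, hsa⟩ := Metric.mem_closure_iff.1 h1 ε hε
  have h2 : (Submodule.span 𝕜 (Set.range fun n => (⟨x n, mem_closedSpan x n⟩ :
      closedSpan 𝕜 x))).map (closedSpan 𝕜 x).subtype = Submodule.span 𝕜 (Set.range x) := by
    rw [Submodule.map_span, ← Set.range_comp]
    rfl
  rw [← h2] at hs
  obtain ⟨s', hs', rfl⟩ := hs
  refine ⟨s', ?_, hs'⟩
  rw [Metric.mem_ball, dist_comm]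
  exact hsa

theorem main [TopologicalSpace.SeparableSpace E] (x : ℕ → E)
    (φ : ℕ → StrongDual 𝕜 (closedSpan 𝕜 x))
    (hφ : ∀ i j, φ i ⟨x j, mem_closedSpan x j⟩ = if i = j then 1 else 0)
    {M : ℝ} (hM : ∀ n, ‖φ n‖ ≤ M) :
    ∃ f : ℕ → StrongDual 𝕜 E, (∀ n (a : closedSpan 𝕜 x), f n a = φ n a) ∧
      (∃ C, ∀ n, ‖f n‖ ≤ C) ∧
      Dense ((closedSpan 𝕜 x ⊔ ⨅ n, LinearMap.ker (f n : E →ₗ[𝕜] 𝕜) : Submodule 𝕜 E) : Set E) := by
  classical
  obtain ⟨M', hM1, hMM⟩ : ∃ M' : ℝ, 1 ≤ M' ∧ ∀ n, ‖φ n‖ ≤ M' :=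
    ⟨max M 1, le_max_right _ _, fun n => (hM n).trans (le_max_left _ _)⟩
  clear hM
  let F := closedSpan 𝕜 x
  have hFcl : IsClosed (F : Set E) := Submodule.isClosed_topologicalClosure _
  have hlim : ∀ a : F, Tendsto (fun n => φ n a) atTop (𝓝 0) := fun a =>
    tendsto_zero F _ (dense_closedSpan x) φ (fun i j hij => by rw [hφ, if_neg hij]) hMM a
  obtain ⟨Z, hc⟩ := Submodule.exists_isCompl F
  let y := TopologicalSpace.denseSeq E
  have hyd : ∀ k, ∃ a ∈ F, ∃ z ∈ Z, a + z = y k := fun k =>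
    Submodule.mem_sup.1 (hc.sup_eq_top ▸ Submodule.mem_top)
  choose a ha z hz haz using hyd
  let Zk : ℕ → Submodule 𝕜 E := fun k => Submodule.span 𝕜 (z '' Set.Iio k)
  have hZk : ∀ k, Zk k ≤ Z := by
    intro k
    rw [Submodule.span_le]
    rintro _ ⟨i, _, rfl⟩
    exact hz i
  have hfd : ∀ k, FiniteDimensional 𝕜 (Zk k) := fun k =>
    FiniteDimensional.span_of_finite 𝕜 ((Set.finite_Iio k).image z)
  have hmono : Monotone Zk := fun i j hij =>
    Submodule.span_mono (Set.image_mono (Set.Iio_subset_Iio hij))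
  let bd : ℕ → ℕ → Prop := fun n k => ∀ (b : F) (w : Zk k), ‖φ n b‖ ≤ 3 * M' * ‖(b : E) + w‖
  have hev : ∀ k, ∃ N, ∀ n, N ≤ n → bd n k := by
    intro k
    have := hfd k
    exact eventually_bound F hFcl (Zk k) (hc.disjoint.mono_right (hZk k)) φ hM1 hMM hlim
  have hbd0 : ∀ n, bd n 0 := by
    intro n b w
    have h1 : (w : E) = 0 := by
      have h3 : Zk 0 = ⊥ := by
        simp [Zk]
      exact (Submodule.mem_bot 𝕜).1 (h3.le w.2)
    rw [h1, add_zero]
    have h2 := (φ n).le_opNorm b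
    have h3 : ‖(b : E)‖ = ‖b‖ := rfl
    rw [h3]
    have h4 := mul_le_mul_of_nonneg_right (hMM n) (norm_nonneg b)
    have h5 := norm_nonneg b
    nlinarith
  let kk : ℕ → ℕ := fun n => Nat.findGreatest (bd n) n
  have hkk : ∀ n, bd n (kk n) := fun n => Nat.findGreatest_spec (Nat.zero_le n) (hbd0 n)
  have hext : ∀ n, ∃ f : StrongDual 𝕜 E, (∀ b : F, f b = φ n b) ∧ (∀ w ∈ Zk (kk n), f w = 0) ∧
      ‖f‖ ≤ 3 * M' := fun n =>
    exists_ext F Z (Zk (kk n)) hc (hZk _) (φ n) (by linarith) (hkk n)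
  choose f hf1 hf2 hf3 using hext
  refine ⟨f, hf1, ⟨3 * M', hf3⟩, ?_⟩
  have hvan : ∀ i, ∃ N, ∀ n, N ≤ n → f n (z i) = 0 := by
    intro i
    obtain ⟨N, hN⟩ := hev (i + 1)
    refine ⟨max N (i + 1), fun n hn => ?_⟩
    have h1 : i + 1 ≤ kk n :=
      Nat.le_findGreatest (le_of_max_le_right hn) (hN n (le_of_max_le_left hn))
    exact hf2 n _ (hmono h1 (Submodule.subset_span ⟨i, Set.mem_Iio.2 (Nat.lt_succ_self i), rfl⟩))
  have hfx : ∀ m n, f m (x n) = if m = n then 1 else 0 := by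
    intro m n
    rw [← hφ m n]
    exact hf1 m ⟨x n, mem_closedSpan x n⟩
  refine (TopologicalSpace.denseRange_denseSeq E).mono ?_
  rintro _ ⟨k, rfl⟩
  obtain ⟨N, hN⟩ := hvan k
  have hker : z k - ∑ n ∈ Finset.range N, f n (z k) • x n ∈
      ⨅ n, LinearMap.ker (f n : E →ₗ[𝕜] 𝕜) := by
    rw [Submodule.mem_iInf]
    intro m
    rw [LinearMap.mem_ker]
    change f m (z k - ∑ n ∈ Finset.range N, f n (z k) • x n) = 0
    rw [map_sub, map_sum]
    by_cases hm : m < N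
    · rw [Finset.sum_eq_single m]
      · rw [map_smul, hfx, if_pos rfl, smul_eq_mul, mul_one, sub_self]
      · intro n _ hnm
        rw [map_smul, hfx, if_neg hnm.symm, smul_zero]
      · intro h
        exact absurd (Finset.mem_range.2 hm) h
    · rw [hN m (not_lt.1 hm), Finset.sum_eq_zero, sub_zero]
      intro n hn
      rw [map_smul, hfx, if_neg, smul_zero]
      rw [Finset.mem_range] at hn
      omega
  have hsum : ∑ n ∈ Finset.range N, f n (z k) • x n ∈ F :=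
    Submodule.sum_mem _ fun n _ => F.smul_mem _ (mem_closedSpan x n)
  have e : y k = (a k + ∑ n ∈ Finset.range N, f n (z k) • x n) +
      (z k - ∑ n ∈ Finset.range N, f n (z k) • x n) := by
    rw [← haz k]
    abel
  change y k ∈ F ⊔ ⨅ n, LinearMap.ker (f n : E →ₗ[𝕜] 𝕜)
  rw [e]
  exact Submodule.add_mem_sup (F.add_mem (ha k) hsum) hker

end Q41.BE
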