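import Mathlib
import Pool.Agent.Q41.BE.Ext

set_option autoImplicit false
set_option synthInstance.maxHeartbeats 400000

/-!
# Extending bounded minimal sequences: finite systems
-/

namespace Q41.BE

open Filter Topology

variable {𝕜 E : Type*} [RCLike 𝕜] [NormedAddCommGroup E] [NormedSpace 𝕜 E]

/-- Finite biorthogonal systems `(y, h)` with `h = 0` on `F` such that the `φ n` have extensions of
norm at most `C` which vanish on all `y`. -/
structure Sys (F : Submodule 𝕜 E) (φ : ℕ → StrongDual 𝕜 E) (C : ℝ)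
    (u : Finset (E × StrongDual 𝕜 E)) : Prop where
  one : ∀ p ∈ u, p.2 p.1 = 1
  zero : ∀ p ∈ u, ∀ q ∈ u, p ≠ q → p.2 q.1 = 0
  van : ∀ p ∈ u, ∀ a ∈ F, p.2 a = 0
  ext : ∀ n, ∃ f : StrongDual 𝕜 E, ‖f‖ ≤ C ∧ (∀ a ∈ F, f a = φ n a) ∧ ∀ p ∈ u, f p.1 = 0

/-- the span of the vectors of the system -/
def Y (u : Finset (E × StrongDual 𝕜 E)) : Submodule 𝕜 E :=
  Submodule.span 𝕜 (Prod.fst '' (u : Set (E × StrongDual 𝕜 E)))

theorem mem_Y {u : Finset (E × StrongDual 𝕜 E)} {p : E × StrongDual 𝕜 E} (hp : p ∈ u) :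
    p.1 ∈ Y u := Submodule.subset_span ⟨p, hp, rfl⟩

theorem Y_mono {u v : Finset (E × StrongDual 𝕜 E)} (h : u ⊆ v) : Y u ≤ Y v :=
  Submodule.span_mono (Set.image_mono (by exact_mod_cast h))

instance (u : Finset (E × StrongDual 𝕜 E)) : FiniteDimensional 𝕜 (Y u) :=
  FiniteDimensional.span_of_finite 𝕜 (u.finite_toSet.image _)

theorem Sys.eq_sum {F : Submodule 𝕜 E} {φ : ℕ → StrongDual 𝕜 E} {C : ℝ}
    {u : Finset (E × StrongDual 𝕜 E)} (hu : Sys F φ C u) {w : E} (hw : w ∈ Y u) :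
    w = ∑ p ∈ u, p.2 w • p.1 := by
  classical
  induction hw using Submodule.span_induction with
  | mem y hy =>
    obtain ⟨p, hp, rfl⟩ := hy
    have hp' : p ∈ u := hp
    rw [Finset.sum_eq_single p]
    · rw [hu.one p hp', one_smul]
    · intro q hq hqp
      rw [hu.zero q hq p hp' hqp, zero_smul]
    · intro h
      exact absurd hp' h
  | zero => simp
  | add y z _ _ h1 h2 =>
    conv_lhs => rw [h1, h2]
    rw [← Finset.sum_add_distrib]
    refine Finset.sum_congr rfl fun p _ => ?_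
    rw [map_add, add_smul]
  | smul c y _ h1 =>
    conv_lhs => rw [h1]
    rw [Finset.smul_sum]
    refine Finset.sum_congr rfl fun p _ => ?_
    rw [map_smul, smul_eq_mul, mul_smul]

theorem Sys.disjoint {F : Submodule 𝕜 E} {φ : ℕ → StrongDual 𝕜 E} {C : ℝ}
    {u : Finset (E × StrongDual 𝕜 E)} (hu : Sys F φ C u) : Disjoint F (Y u) := by
  rw [Submodule.disjoint_def]
  intro w hF hw
  rw [hu.eq_sum hw]
  apply Finset.sum_eq_zero
  intro p hp
  rw [hu.van p hp w hF, zero_smul]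

/-- Extension from the bound. -/
theorem exists_ext' (F Z' : Submodule 𝕜 E) (hd : Disjoint F Z')
    (φ : StrongDual 𝕜 E) {C : ℝ} (hC : 0 ≤ C)
    (hb : ∀ a ∈ F, ∀ z ∈ Z', ‖φ a‖ ≤ C * ‖a + z‖) :
    ∃ f : StrongDual 𝕜 E, ‖f‖ ≤ C ∧ (∀ a ∈ F, f a = φ a) ∧ ∀ z ∈ Z', f z = 0 := by
  obtain ⟨Z, hZ, hc⟩ := hd.symm.exists_isCompl
  obtain ⟨f, h1, h2, h3⟩ := exists_ext F Z Z' hc.symm hZ (φ.comp F.subtypeL) hC
    (fun a z => hb a a.2 z z.2)
  exact ⟨f, h3, fun a ha => h1 ⟨a, ha⟩, h2⟩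

/-- For large `n` the functional `φ n` has an extension of norm `≤ 3 M` vanishing on `Z`. -/
theorem exists_large (F : Submodule 𝕜 E) (hF : IsClosed (F : Set E)) (Z : Submodule 𝕜 E)
    [FiniteDimensional 𝕜 Z] (hFZ : Disjoint F Z) (φ : ℕ → StrongDual 𝕜 E) {M : ℝ} (hM1 : 1 ≤ M)
    (hM : ∀ n, ‖φ n‖ ≤ M) (hlim : ∀ a ∈ F, Tendsto (fun n => φ n a) atTop (𝓝 0)) :
    ∃ N, ∀ n, N ≤ n → ∃ f : StrongDual 𝕜 E, ‖f‖ ≤ 3 * M ∧ (∀ a ∈ F, f a = φ n a) ∧
      ∀ z ∈ Z, f z = 0 := by
  obtain ⟨N, hN⟩ := eventually_bound F hF Z hFZ (fun n => (φ n).comp F.subtypeL) hM1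
    (fun n => ((φ n).opNorm_comp_le F.subtypeL).trans (by
      have h1 : ‖F.subtypeL‖ ≤ 1 := F.norm_subtypeL_le
      have h2 := hM n
      have h3 := norm_nonneg (φ n)
      nlinarith [norm_nonneg F.subtypeL])) (fun a => hlim a a.2)
  refine ⟨N, fun n hn => exists_ext' F Z hFZ (φ n) (by linarith) ?_⟩
  intro a ha z hz
  exact hN n hn ⟨a, ha⟩ ⟨z, hz⟩

/-- Separation of a point from a closed subspace. -/
theorem exists_sep (V : Submodule 𝕜 E) (hV : IsClosed (V : Set E)) {y : E} (hy : y ∉ V) :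
    ∃ h : StrongDual 𝕜 E, h y = 1 ∧ ∀ a ∈ V, h a = 0 := by
  have : IsClosed (V.toAddSubgroup : Set E) := hV
  have hne : V.mkQ y ≠ 0 := by
    rw [Submodule.mkQ_apply, Ne, Submodule.Quotient.mk_eq_zero]; exact hy
  obtain ⟨g, hg⟩ := SeparatingDual.exists_eq_one (R := 𝕜) hne
  refine ⟨g.comp V.mkQL, hg, fun a ha => ?_⟩
  change g (V.mkQ a) = 0
  have : V.mkQ a = 0 := by
    rw [Submodule.mkQ_apply, Submodule.Quotient.mk_eq_zero]; exact ha
  rw [this, map_zero]

/-- Adding one vector, without control of the norm. -/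
theorem bad_step {F : Submodule 𝕜 E} (hF : IsClosed (F : Set E)) {φ : ℕ → StrongDual 𝕜 E}
    {x : ℕ → E} (hx : ∀ n, x n ∈ F) (hφ : ∀ i j, i ≠ j → φ i (x j) = 0) (hφ1 : ∀ i, φ i (x i) = 1)
    {M C : ℝ} (hM1 : 1 ≤ M) (hC : 3 * M ≤ C) (hM : ∀ n, ‖φ n‖ ≤ M)
    (hlim : ∀ a ∈ F, Tendsto (fun n => φ n a) atTop (𝓝 0))
    [DecidableEq (E × StrongDual 𝕜 E)]
    {u : Finset (E × StrongDual 𝕜 E)} (hu : Sys F φ C u) {z : E} (hz : z ∉ F ⊔ Y u) :
    ∃ q, q ∉ u ∧ Sys F φ C (insert q u) ∧ z ∈ F ⊔ Y (insert q u) := by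
  have hdisj : Disjoint F (Y u ⊔ Submodule.span 𝕜 {z}) := by
    rw [Submodule.disjoint_def]
    intro a ha haz
    obtain ⟨w, hw, t, ht, rfl⟩ := Submodule.mem_sup.1 haz
    obtain ⟨c, rfl⟩ := Submodule.mem_span_singleton.1 ht
    by_cases hc : c = 0
    · rw [hc, zero_smul, add_zero] at ha ⊢
      exact Submodule.disjoint_def.1 hu.disjoint w ha hw
    · exfalso
      apply hz
      have h1 : z = c⁻¹ • ((w + c • z) - w) := by
        rw [add_sub_cancel_left, smul_smul, inv_mul_cancel₀ hc, one_smul]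
      rw [h1]
      exact Submodule.smul_mem _ _ (Submodule.sub_mem _ (Submodule.mem_sup_left ha)
        (Submodule.mem_sup_right hw))
  obtain ⟨N, hN⟩ := exists_large F hF (Y u ⊔ Submodule.span 𝕜 {z}) hdisj φ hM1 hM hlim
  choose f hfC hfF hfu using hu.ext
  set y : E := z - ∑ p ∈ u, p.2 z • p.1 - ∑ n ∈ Finset.range N, f n z • x n with hy
  have hyz : z = (∑ n ∈ Finset.range N, f n z • x n) + (∑ p ∈ u, p.2 z • p.1 + y) := by
    rw [hy]; abel
  have hsF : ∑ n ∈ Finset.range N, f n z • x n ∈ F :=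
    Submodule.sum_mem _ fun n _ => F.smul_mem _ (hx n)
  have hsY : ∑ p ∈ u, p.2 z • p.1 ∈ Y u :=
    Submodule.sum_mem _ fun p hp => (Y u).smul_mem _ (mem_Y hp)
  have hynot : y ∉ F ⊔ Y u := by
    intro h
    apply hz
    rw [hyz]
    exact Submodule.add_mem _ (Submodule.mem_sup_left hsF)
      (Submodule.add_mem _ (Submodule.mem_sup_right hsY) h)
  -- the functional
  have hcl : IsClosed ((F ⊔ Y u : Submodule 𝕜 E) : Set E) :=
    Submodule.isClosed_sup_finiteDimensional F (Y u) hF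
  obtain ⟨h, hh1, hh0⟩ := exists_sep (F ⊔ Y u) hcl hynot
  have hpy : ∀ p ∈ u, p.2 y = 0 := by
    intro p hp
    rw [hy, map_sub, map_sub, map_sum, map_sum]
    have h1 : ∑ q ∈ u, p.2 (q.2 z • q.1) = p.2 z := by
      rw [Finset.sum_eq_single p]
      · rw [map_smul, hu.one p hp, smul_eq_mul, mul_one]
      · intro q hq hqp
        rw [map_smul, hu.zero p hp q hq hqp.symm, smul_zero]
      · intro h'
        exact absurd hp h'
    have h2 : ∑ n ∈ Finset.range N, p.2 (f n z • x n) = 0 := by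
      apply Finset.sum_eq_zero
      intro n _
      rw [map_smul, hu.van p hp _ (hx n), smul_zero]
    rw [h1, h2, sub_self, sub_zero]
  have hq : (y, h) ∉ u := by
    intro hmem
    have h1 := hpy _ hmem
    simp only at h1
    rw [h1] at hh1
    exact zero_ne_one hh1
  refine ⟨(y, h), hq, ⟨?_, ?_, ?_, ?_⟩, ?_⟩
  · intro p hp
    rcases Finset.mem_insert.1 hp with rfl | hp
    · exact hh1
    · exact hu.one p hp
  · intro p hp q hq' hpq
    rcases Finset.mem_insert.1 hp with rfl | hp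
    · rcases Finset.mem_insert.1 hq' with rfl | hq'
      · exact absurd rfl hpq
      · exact hh0 _ (Submodule.mem_sup_right (mem_Y hq'))
    · rcases Finset.mem_insert.1 hq' with rfl | hq'
      · exact hpy p hp
      · exact hu.zero p hp q hq' hpq
  · intro p hp a ha
    rcases Finset.mem_insert.1 hp with rfl | hp
    · exact hh0 _ (Submodule.mem_sup_left ha)
    · exact hu.van p hp a ha
  · intro n
    by_cases hn : n < N
    · refine ⟨f n, hfC n, hfF n, fun p hp => ?_⟩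
      rcases Finset.mem_insert.1 hp with rfl | hp
      · change f n y = 0
        rw [hy, map_sub, map_sub, map_sum, map_sum]
        have h1 : ∑ q ∈ u, f n (q.2 z • q.1) = 0 := by
          apply Finset.sum_eq_zero
          intro q hq
          rw [map_smul, hfu n q hq, smul_zero]
        have h2 : ∑ m ∈ Finset.range N, f n (f m z • x m) = f n z := by
          rw [Finset.sum_eq_single n]
          · rw [map_smul, hfF n _ (hx n), hφ1, smul_eq_mul, mul_one]
          · intro m _ hmn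
            rw [map_smul, hfF n _ (hx m), hφ n m hmn.symm, smul_zero]
          · intro h'
            exact absurd (Finset.mem_range.2 hn) h'
        rw [h1, h2, sub_zero, sub_self]
      · exact hfu n p hp
    · obtain ⟨f', hf'C, hf'F, hf'Z⟩ := hN n (not_lt.1 hn)
      refine ⟨f', hf'C.trans hC, hf'F, fun p hp => ?_⟩
      rcases Finset.mem_insert.1 hp with rfl | hp
      · change f' y = 0
        rw [hy, map_sub, map_sub, map_sum, map_sum]
        have h1 : ∑ q ∈ u, f' (q.2 z • q.1) = 0 := by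
          apply Finset.sum_eq_zero
          intro q hq
          rw [map_smul, hf'Z _ (Submodule.mem_sup_left (mem_Y hq)), smul_zero]
        have h2 : ∑ m ∈ Finset.range N, f' (f m z • x m) = 0 := by
          apply Finset.sum_eq_zero
          intro m hm
          have hmn : n ≠ m := by
            have := Finset.mem_range.1 hm
            omega
          rw [map_smul, hf'F _ (hx m), hφ n m hmn, smul_zero]
        have h3 : f' z = 0 := hf'Z _ (Submodule.mem_sup_right (Submodule.mem_span_singleton_self z))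
        rw [h1, h2, h3, sub_zero, sub_zero]
      · exact hf'Z _ (Submodule.mem_sup_left (mem_Y hp))
  · rw [hyz]
    refine Submodule.add_mem _ (Submodule.mem_sup_left hsF) (Submodule.add_mem _
      (Submodule.mem_sup_right (Y_mono (Finset.subset_insert _ _) hsY))
      (Submodule.mem_sup_right (mem_Y (Finset.mem_insert_self _ _))))

end Q41.BE
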