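import Mathlib
import Pool.Agent.Q41.BE.Sys

set_option autoImplicit false
set_option synthInstance.maxHeartbeats 400000

/-!
# Extending bounded minimal sequences: steps with control of the norm
-/

namespace Q41.BE

open Filter Topology

variable {𝕜 E : Type*} [RCLike 𝕜] [NormedAddCommGroup E] [NormedSpace 𝕜 E]

/-- Bounded functionals on `E / F` which converge pointwise to zero, but not in norm. -/
structure Supply (F : Submodule 𝕜 E) where
  g : ℕ → StrongDual 𝕜 E
  w : ℕ → E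
  norm_g : ∀ m, ‖g m‖ ≤ 1
  norm_w : ∀ m, ‖w m‖ ≤ 2
  one : ∀ m, g m (w m) = 1
  van : ∀ m, ∀ a ∈ F, g m a = 0
  lim : ∀ z, Tendsto (fun m => g m z) atTop (𝓝 0)

theorem exists_supply [TopologicalSpace.SeparableSpace E] (F : Submodule 𝕜 E)
    (hF : IsClosed (F : Set E))
    (hinf : ∀ Z : Submodule 𝕜 E, FiniteDimensional 𝕜 Z → F ⊔ Z ≠ ⊤) : Nonempty (Supply F) := by
  let y := TopologicalSpace.denseSeq E
  have hstep : ∀ m, ∃ (g : StrongDual 𝕜 E) (w : E), ‖g‖ ≤ 1 ∧ ‖w‖ ≤ 2 ∧ g w = 1 ∧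
      (∀ a ∈ F, g a = 0) ∧ ∀ k < m, g (y k) = 0 := by
    intro m
    have hfd : FiniteDimensional 𝕜 (Submodule.span 𝕜 (y '' Set.Iio m)) :=
      FiniteDimensional.span_of_finite 𝕜 ((Set.finite_Iio m).image y)
    set V := F ⊔ Submodule.span 𝕜 (y '' Set.Iio m) with hV
    have hcl : IsClosed (V : Set E) := Submodule.isClosed_sup_finiteDimensional F _ hF
    obtain ⟨b, -, hb⟩ := SetLike.exists_of_lt (lt_top_iff_ne_top.2 (hinf _ hfd))
    obtain ⟨h, hh1, hh0⟩ := exists_sep V hcl hb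
    have hh : 0 < ‖h‖ := by
      rw [norm_pos_iff]
      rintro rfl
      simp at hh1
    set g : StrongDual 𝕜 E := (((‖h‖⁻¹ : ℝ)) : 𝕜) • h with hg
    have hgn : ‖g‖ = 1 := by
      rw [hg, norm_smul, RCLike.norm_ofReal, abs_of_pos (inv_pos.2 hh), inv_mul_cancel₀ hh.ne']
    obtain ⟨v, hv1, hv2⟩ := g.exists_lt_apply_of_lt_opNorm (r := 1 / 2) (by rw [hgn]; norm_num)
    have hgv : g v ≠ 0 := by
      intro h0
      rw [h0, norm_zero] at hv2
      linarith
    refine ⟨g, (g v)⁻¹ • v, hgn.le, ?_, ?_, ?_, ?_⟩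
    · rw [norm_smul, norm_inv]
      have h1 : ‖g v‖⁻¹ ≤ 2 := by
        rw [inv_le_comm₀ (norm_pos_iff.2 hgv) (by norm_num)]
        linarith
      calc ‖g v‖⁻¹ * ‖v‖ ≤ 2 * 1 := mul_le_mul h1 hv1.le (norm_nonneg _) (by norm_num)
        _ = 2 := by norm_num
    · rw [map_smul, smul_eq_mul, inv_mul_cancel₀ hgv]
    · intro a ha
      rw [hg, smul_apply, hh0 a (Submodule.mem_sup_left ha), smul_zero]
    · intro k hk
      rw [hg, smul_apply, hh0 (y k) (Submodule.mem_sup_right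
        (Submodule.subset_span ⟨k, hk, rfl⟩)), smul_zero]
  choose g w h1 h2 h3 h4 h5 using hstep
  refine ⟨⟨g, w, h1, h2, h3, h4, fun z => ?_⟩⟩
  rw [Metric.tendsto_atTop]
  intro ε hε
  obtain ⟨k, hk⟩ := (TopologicalSpace.denseRange_denseSeq E).exists_dist_lt z hε
  refine ⟨k + 1, fun m hm => ?_⟩
  rw [dist_zero_right]
  have h6 : g m z = g m (z - y k) := by rw [map_sub, h5 m k (by omega), sub_zero]
  rw [h6]
  calc ‖g m (z - y k)‖ ≤ ‖g m‖ * ‖z - y k‖ := (g m).le_opNorm _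
    _ ≤ 1 * ‖z - y k‖ := mul_le_mul_of_nonneg_right (h1 m) (norm_nonneg _)
    _ < ε := by rw [one_mul, ← dist_eq_norm]; exact hk

/-- Adding one vector, with control of the norm. -/
theorem good_step {F : Submodule 𝕜 E} (hF : IsClosed (F : Set E)) (S : Supply F)
    {φ : ℕ → StrongDual 𝕜 E}
    {x : ℕ → E} (hx : ∀ n, x n ∈ F) (hφ : ∀ i j, i ≠ j → φ i (x j) = 0) (hφ1 : ∀ i, φ i (x i) = 1)
    {M C B : ℝ} (hM1 : 1 ≤ M) (hC : 63 * M ≤ C) (hM : ∀ n, ‖φ n‖ ≤ M) (hxB : ∀ n, ‖x n‖ ≤ B)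
    (hlim : ∀ a ∈ F, Tendsto (fun n => φ n a) atTop (𝓝 0))
    [DecidableEq (E × StrongDual 𝕜 E)]
    {u : Finset (E × StrongDual 𝕜 E)} (hu : Sys F φ C u) :
    ∃ q, q ∉ u ∧ Sys F φ C (insert q u) ∧ ‖q.1‖ ≤ 5 ∧ ‖q.2‖ ≤ 4 := by
  classical
  obtain ⟨N, hN⟩ := exists_large F hF (Y u) hu.disjoint φ hM1 hM hlim
  choose f hfC hfF hfu using hu.ext
  have hB0 : 0 ≤ B := (norm_nonneg _).trans (hxB 0)
  -- the constant
  set K : ℝ := (∑ p ∈ u, (‖p.1‖ + ‖p.2‖)) + N * B + u.card + 1 with hK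
  have hK1 : 1 ≤ K := by
    have h1 : 0 ≤ ∑ p ∈ u, (‖p.1‖ + ‖p.2‖) := Finset.sum_nonneg fun p _ => by positivity
    have h2 : (0 : ℝ) ≤ N * B := by positivity
    have h3 : (0 : ℝ) ≤ u.card := by positivity
    linarith
  set ε : ℝ := (4 * K)⁻¹ with hε
  have hε0 : 0 < ε := by positivity
  have hε1 : ε ≤ 1 / 4 := by
    rw [hε, one_div]
    exact inv_anti₀ (by norm_num) (by linarith)
  have hεK : ε * K = 1 / 4 := by
    rw [hε]
    field_simp
  -- choice of two members of the supply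
  obtain ⟨m, m', h1, h2, h3⟩ : ∃ m m' : ℕ,
      (∀ n < N, ‖f n (S.w m' - S.w m)‖ ≤ ε) ∧ (∀ p ∈ u, ‖p.2 (S.w m' - S.w m)‖ ≤ ε) ∧
      (‖S.g m' (S.w m)‖ ≤ ε ∧ ∀ p ∈ u, ‖S.g m' p.1‖ ≤ ε) := by
    let Φ : E → (Fin N → 𝕜) × (u → 𝕜) := fun v => (fun n => f n v, fun p => p.1.2 v)
    have hbd : ∃ R : ℝ, ∀ m, ‖Φ (S.w m)‖ ≤ R := by
      have hC0 : 0 ≤ C := by nlinarith
      have hpK : ∀ p ∈ u, ‖p.2‖ ≤ K := by
        intro p hp
        have h1 : ‖p.1‖ + ‖p.2‖ ≤ ∑ p ∈ u, (‖p.1‖ + ‖p.2‖) :=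
          Finset.single_le_sum (f := fun p : E × StrongDual 𝕜 E => ‖p.1‖ + ‖p.2‖)
            (fun p _ => by positivity) hp
        have h2 : (0 : ℝ) ≤ N * B := by positivity
        have h3 : (0 : ℝ) ≤ u.card := by positivity
        have h4 := norm_nonneg p.1
        linarith
      refine ⟨2 * C + 2 * K, fun m => ?_⟩
      rw [Prod.norm_def]
      apply max_le
      · rw [pi_norm_le_iff_of_nonneg (by positivity)]
        intro n
        have h1 : ‖f n (S.w m)‖ ≤ C * 2 :=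
          ((f n).le_opNorm _).trans (mul_le_mul (hfC n) (S.norm_w m) (norm_nonneg _) hC0)
        change ‖f n (S.w m)‖ ≤ _
        linarith
      · rw [pi_norm_le_iff_of_nonneg (by positivity)]
        intro p
        have h1 : ‖p.1.2 (S.w m)‖ ≤ K * 2 :=
          (p.1.2.le_opNorm _).trans (mul_le_mul (hpK p.1 p.2) (S.norm_w m) (norm_nonneg _)
            (by linarith))
        change ‖p.1.2 (S.w m)‖ ≤ _
        linarith
    obtain ⟨R, hR⟩ := hbd
    have hcomp : IsCompact (Metric.closedBall (0 : (Fin N → 𝕜) × (u → 𝕜)) R) :=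
      isCompact_closedBall _ _
    obtain ⟨a, -, ψ, hψ, hψa⟩ := hcomp.tendsto_subseq (x := fun m => Φ (S.w m))
      (fun m => by rw [mem_closedBall_zero_iff]; exact hR m)
    have hcau := hψa.cauchySeq
    rw [Metric.cauchySeq_iff'] at hcau
    obtain ⟨k, hk⟩ := hcau ε hε0
    have hl1 : ∀ᶠ i in atTop, ‖S.g (ψ i) (S.w (ψ k))‖ < ε := by
      have := ((S.lim (S.w (ψ k))).comp hψ.tendsto_atTop).norm
      rw [norm_zero] at this
      exact this.eventually_lt_const hε0
    have hl2 : ∀ᶠ i in atTop, ∀ p ∈ u, ‖S.g (ψ i) p.1‖ < ε := by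
      rw [Finset.eventually_all]
      intro p _
      have := ((S.lim p.1).comp hψ.tendsto_atTop).norm
      rw [norm_zero] at this
      exact this.eventually_lt_const hε0
    obtain ⟨i, hi1, hi2, hi3⟩ := (hl1.and (hl2.and (eventually_ge_atTop k))).exists
    have hd := hk i hi3
    rw [dist_eq_norm] at hd
    simp only [Function.comp_apply] at hd
    refine ⟨ψ k, ψ i, ?_, ?_, hi1.le, fun p hp => (hi2 p hp).le⟩
    · intro n hn
      have h1 : f n (S.w (ψ i) - S.w (ψ k)) = (Φ (S.w (ψ i)) - Φ (S.w (ψ k))).1 ⟨n, hn⟩ := by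
        rw [map_sub]; rfl
      rw [h1]
      exact (norm_le_pi_norm _ _).trans ((norm_fst_le _).trans hd.le)
    · intro p hp
      have h1 : p.2 (S.w (ψ i) - S.w (ψ k)) = (Φ (S.w (ψ i)) - Φ (S.w (ψ k))).2 ⟨p, hp⟩ := by
        rw [map_sub]; rfl
      rw [h1]
      exact (norm_le_pi_norm _ _).trans ((norm_snd_le _).trans hd.le)
  set v := S.w m' - S.w m with hv
  set g := S.g m' with hg
  obtain ⟨h3a, h3b⟩ := h3
  set y : E := v - ∑ p ∈ u, p.2 v • p.1 - ∑ n ∈ Finset.range N, f n v • x n with hy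
  set h0 : StrongDual 𝕜 E := g - ∑ p ∈ u, g p.1 • p.2 with hh0
  have hNB : (0 : ℝ) ≤ N * B := by positivity
  have hcard : (0 : ℝ) ≤ u.card := by positivity
  have hs1 : 0 ≤ ∑ p ∈ u, ‖p.1‖ := Finset.sum_nonneg fun p _ => norm_nonneg _
  have hs2 : 0 ≤ ∑ p ∈ u, ‖p.2‖ := Finset.sum_nonneg fun p _ => norm_nonneg _
  have hKs : K = (∑ p ∈ u, ‖p.1‖) + (∑ p ∈ u, ‖p.2‖) + N * B + u.card + 1 := by
    rw [hK, Finset.sum_add_distrib]
  have hvn : ‖v‖ ≤ 4 := by
    rw [hv]
    have := norm_sub_le (S.w m') (S.w m)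
    linarith [S.norm_w m, S.norm_w m']
  have hyn : ‖y‖ ≤ 5 := by
    have e1 : ‖∑ p ∈ u, p.2 v • p.1‖ ≤ ε * ∑ p ∈ u, ‖p.1‖ := by
      rw [Finset.mul_sum]
      refine norm_sum_le_of_le _ fun p hp => ?_
      rw [norm_smul]
      exact mul_le_mul_of_nonneg_right (h2 p hp) (norm_nonneg _)
    have e2 : ‖∑ n ∈ Finset.range N, f n v • x n‖ ≤ ε * (N * B) := by
      have : ε * (N * B) = ∑ n ∈ Finset.range N, ε * B := by
        rw [Finset.sum_const, Finset.card_range, nsmul_eq_mul]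
        ring
      rw [this]
      refine norm_sum_le_of_le _ fun n hn => ?_
      rw [norm_smul]
      exact mul_le_mul (h1 n (Finset.mem_range.1 hn)) (hxB n) (norm_nonneg _) hε0.le
    have e3 : ε * (∑ p ∈ u, ‖p.1‖) + ε * (N * B) ≤ ε * K := by
      rw [hKs]
      nlinarith
    have e4 := norm_sub_le (v - ∑ p ∈ u, p.2 v • p.1) (∑ n ∈ Finset.range N, f n v • x n)
    have e5 := norm_sub_le v (∑ p ∈ u, p.2 v • p.1)
    rw [← hy] at e4
    linarith
  have hh0n : ‖h0‖ ≤ 2 := by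
    have e1 : ‖∑ p ∈ u, g p.1 • p.2‖ ≤ ε * ∑ p ∈ u, ‖p.2‖ := by
      rw [Finset.mul_sum]
      refine norm_sum_le_of_le _ fun p hp => ?_
      rw [norm_smul]
      exact mul_le_mul_of_nonneg_right (h3b p hp) (norm_nonneg _)
    have e3 : ε * (∑ p ∈ u, ‖p.2‖) ≤ ε * K := by
      rw [hKs]
      nlinarith
    have e4 := norm_sub_le g (∑ p ∈ u, g p.1 • p.2)
    have e5 : ‖g‖ ≤ 1 := S.norm_g m'
    rw [← hh0] at e4
    linarith
  have hpy : ∀ p ∈ u, p.2 y = 0 := by
    intro p hp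
    rw [hy, map_sub, map_sub, map_sum, map_sum]
    have e1 : ∑ q ∈ u, p.2 (q.2 v • q.1) = p.2 v := by
      rw [Finset.sum_eq_single p]
      · rw [map_smul, hu.one p hp, smul_eq_mul, mul_one]
      · intro q hq hqp
        rw [map_smul, hu.zero p hp q hq hqp.symm, smul_zero]
      · intro h'
        exact absurd hp h'
    have e2 : ∑ n ∈ Finset.range N, p.2 (f n v • x n) = 0 := by
      apply Finset.sum_eq_zero
      intro n _
      rw [map_smul, hu.van p hp _ (hx n), smul_zero]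
    rw [e1, e2, sub_self, sub_zero]
  have hfy : ∀ n < N, f n y = 0 := by
    intro n hn
    rw [hy, map_sub, map_sub, map_sum, map_sum]
    have e1 : ∑ q ∈ u, f n (q.2 v • q.1) = 0 := by
      apply Finset.sum_eq_zero
      intro q hq
      rw [map_smul, hfu n q hq, smul_zero]
    have e2 : ∑ m ∈ Finset.range N, f n (f m v • x m) = f n v := by
      rw [Finset.sum_eq_single n]
      · rw [map_smul, hfF n _ (hx n), hφ1, smul_eq_mul, mul_one]
      · intro m _ hmn
        rw [map_smul, hfF n _ (hx m), hφ n m hmn.symm, smul_zero]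
      · intro h'
        exact absurd (Finset.mem_range.2 hn) h'
    rw [e1, e2, sub_zero, sub_self]
  have hh0p : ∀ p ∈ u, h0 p.1 = 0 := by
    intro p hp
    rw [hh0, sub_apply, sum_apply]
    rw [Finset.sum_eq_single p]
    · rw [smul_apply, hu.one p hp, smul_eq_mul, mul_one, sub_self]
    · intro q hq hqp
      rw [smul_apply, hu.zero q hq p hp hqp, smul_zero]
    · intro h'
      exact absurd hp h'
  have hh0F : ∀ a ∈ F, h0 a = 0 := by
    intro a ha
    rw [hh0, sub_apply, sum_apply, Finset.sum_eq_zero, sub_zero]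
    · exact S.van m' a ha
    · intro p hp
      rw [smul_apply, hu.van p hp a ha, smul_zero]
  have hc : ‖h0 y - 1‖ ≤ 1 / 2 := by
    have e0 : h0 y = g y := by
      rw [hh0, sub_apply, sum_apply, Finset.sum_eq_zero, sub_zero]
      intro p hp
      rw [smul_apply, hpy p hp, smul_zero]
    have e1 : g y = g v - ∑ p ∈ u, p.2 v * g p.1 := by
      rw [hy, map_sub, map_sub, map_sum, map_sum]
      have e2 : ∑ n ∈ Finset.range N, g (f n v • x n) = 0 := by
        apply Finset.sum_eq_zero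
        intro n _
        rw [map_smul, hg, S.van m' _ (hx n), smul_zero]
      rw [e2, sub_zero]
      congr 1
      refine Finset.sum_congr rfl fun p _ => ?_
      rw [map_smul, smul_eq_mul]
    have e2 : g v = 1 - g (S.w m) := by
      rw [hv, map_sub]
      congr 1
      exact S.one m'
    have e3 : ‖∑ p ∈ u, p.2 v * g p.1‖ ≤ ε * (ε * u.card) := by
      have : ε * (ε * u.card) = ∑ p ∈ u, ε * ε := by
        rw [Finset.sum_const, nsmul_eq_mul]
        ring
      rw [this]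
      refine norm_sum_le_of_le _ fun p hp => ?_
      rw [norm_mul]
      exact mul_le_mul (h2 p hp) (h3b p hp) (norm_nonneg _) hε0.le
    have e4 : ε * u.card ≤ ε * K := by
      rw [hKs]
      nlinarith
    have e5 : ε * (ε * u.card) ≤ 1 / 4 * (1 / 4) :=
      mul_le_mul hε1 (e4.trans hεK.le) (by positivity) (by norm_num)
    have e6 : h0 y - 1 = -(g (S.w m)) - ∑ p ∈ u, p.2 v * g p.1 := by
      rw [e0, e1, e2]; ring
    rw [e6]
    have e7 := norm_sub_le (-(g (S.w m))) (∑ p ∈ u, p.2 v * g p.1)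
    rw [norm_neg] at e7
    linarith
  have hc2 : 1 / 2 ≤ ‖h0 y‖ := by
    have e1 := norm_sub_norm_le (1 : 𝕜) (1 - h0 y)
    rw [norm_one, sub_sub_cancel, norm_sub_rev] at e1
    linarith
  have hc0 : h0 y ≠ 0 := by
    intro h
    rw [h, norm_zero] at hc2
    linarith
  set h : StrongDual 𝕜 E := (h0 y)⁻¹ • h0 with hh
  have hhn : ‖h‖ ≤ 4 := by
    rw [hh, norm_smul, norm_inv]
    have e1 : ‖h0 y‖⁻¹ ≤ 2 := by
      rw [inv_le_comm₀ (norm_pos_iff.2 hc0) (by norm_num)]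
      linarith
    calc ‖h0 y‖⁻¹ * ‖h0‖ ≤ 2 * 2 := mul_le_mul e1 hh0n (norm_nonneg _) (by norm_num)
      _ = 4 := by norm_num
  have hhy : h y = 1 := by rw [hh, smul_apply, smul_eq_mul, inv_mul_cancel₀ hc0]
  have hhp : ∀ p ∈ u, h p.1 = 0 := fun p hp => by rw [hh, smul_apply, hh0p p hp, smul_zero]
  have hhF : ∀ a ∈ F, h a = 0 := fun a ha => by rw [hh, smul_apply, hh0F a ha, smul_zero]
  have hq : (y, h) ∉ u := by
    intro hmem
    have h1 := hpy _ hmem
    simp only at h1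
    rw [h1] at hhy
    exact zero_ne_one hhy
  refine ⟨(y, h), hq, ⟨?_, ?_, ?_, ?_⟩, hyn, hhn⟩
  · intro p hp
    rcases Finset.mem_insert.1 hp with rfl | hp
    · exact hhy
    · exact hu.one p hp
  · intro p hp q hq' hpq
    rcases Finset.mem_insert.1 hp with rfl | hp
    · rcases Finset.mem_insert.1 hq' with rfl | hq'
      · exact absurd rfl hpq
      · exact hhp q hq'
    · rcases Finset.mem_insert.1 hq' with rfl | hq'
      · exact hpy p hp
      · exact hu.zero p hp q hq' hpq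
  · intro p hp a ha
    rcases Finset.mem_insert.1 hp with rfl | hp
    · exact hhF a ha
    · exact hu.van p hp a ha
  · intro n
    by_cases hn : n < N
    · refine ⟨f n, hfC n, hfF n, fun p hp => ?_⟩
      rcases Finset.mem_insert.1 hp with rfl | hp
      · exact hfy n hn
      · exact hfu n p hp
    · obtain ⟨f', hf'C, hf'F, hf'Z⟩ := hN n (not_lt.1 hn)
      refine ⟨f' - f' y • h, ?_, ?_, ?_⟩
      · have e1 : ‖f' y‖ ≤ (3 * M) * 5 :=
          (f'.le_opNorm y).trans (mul_le_mul hf'C hyn (norm_nonneg _) (by linarith))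
        have e2 : ‖f' y • h‖ ≤ (3 * M * 5) * 4 := by
          rw [norm_smul]
          exact mul_le_mul e1 hhn (norm_nonneg _) (by linarith)
        have e3 := norm_sub_le f' (f' y • h)
        linarith
      · intro a ha
        rw [sub_apply, smul_apply, hhF a ha, smul_zero, sub_zero]
        exact hf'F a ha
      · intro p hp
        rcases Finset.mem_insert.1 hp with rfl | hp
        · rw [sub_apply, smul_apply, hhy, smul_eq_mul, mul_one, sub_self]
        · rw [sub_apply, smul_apply, hhp p hp, smul_zero, sub_zero]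
          exact hf'Z _ (mem_Y hp)

end Q41.BE
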