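import Mathlib
import Pool.Agent.Q41.BE.Sys
import Pool.Agent.Q41.BE.Good

set_option autoImplicit false
set_option synthInstance.maxHeartbeats 400000

/-!
# Extending bounded minimal sequences: mixing
-/

namespace Q41.BE

open Filter Topology

variable {𝕜 E : Type*} [RCLike 𝕜] [NormedAddCommGroup E] [NormedSpace 𝕜 E]

/-- Rotation of two pairs. -/
noncomputable def rp (q0 q1 : E × StrongDual 𝕜 E) : E × StrongDual 𝕜 E :=
  ((3 / 5 : 𝕜) • q0.1 + (4 / 5 : 𝕜) • q1.1, (3 / 5 : 𝕜) • q0.2 + (4 / 5 : 𝕜) • q1.2)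

noncomputable def rm (q0 q1 : E × StrongDual 𝕜 E) : E × StrongDual 𝕜 E :=
  ((4 / 5 : 𝕜) • q0.1 - (3 / 5 : 𝕜) • q1.1, (4 / 5 : 𝕜) • q0.2 - (3 / 5 : 𝕜) • q1.2)

theorem norm_35 : ‖(3 / 5 : 𝕜)‖ = 3 / 5 := by
  rw [norm_div, RCLike.norm_ofNat, RCLike.norm_ofNat]

theorem norm_45 : ‖(4 / 5 : 𝕜)‖ = 4 / 5 := by
  rw [norm_div, RCLike.norm_ofNat, RCLike.norm_ofNat]

theorem norm_rp {q0 q1 : E × StrongDual 𝕜 E} {A : ℝ} (h0 : ‖q0.1‖ ≤ A) (h0' : ‖q0.2‖ ≤ A)
    (h1 : ‖q1.1‖ ≤ 5) (h1' : ‖q1.2‖ ≤ 5) :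
    ‖(rp q0 q1).1‖ ≤ 4 / 5 * (A + 5) ∧ ‖(rp q0 q1).2‖ ≤ 4 / 5 * (A + 5) := by
  have hA : 0 ≤ A := (norm_nonneg _).trans h0
  constructor
  · refine (norm_add_le _ _).trans ?_
    rw [norm_smul, norm_smul, norm_35, norm_45]
    linarith
  · refine (norm_add_le _ _).trans ?_
    rw [norm_smul, norm_smul, norm_35, norm_45]
    linarith

theorem norm_rm {q0 q1 : E × StrongDual 𝕜 E} {A : ℝ} (h0 : ‖q0.1‖ ≤ A) (h0' : ‖q0.2‖ ≤ A)
    (h1 : ‖q1.1‖ ≤ 5) (h1' : ‖q1.2‖ ≤ 5) :
    ‖(rm q0 q1).1‖ ≤ 4 / 5 * (A + 5) ∧ ‖(rm q0 q1).2‖ ≤ 4 / 5 * (A + 5) := by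
  constructor
  · refine (norm_sub_le _ _).trans ?_
    rw [norm_smul, norm_smul, norm_35, norm_45]
    linarith
  · refine (norm_sub_le _ _).trans ?_
    rw [norm_smul, norm_smul, norm_35, norm_45]
    linarith

theorem mix_pair {F : Submodule 𝕜 E} {φ : ℕ → StrongDual 𝕜 E} {C : ℝ}
    [DecidableEq (E × StrongDual 𝕜 E)] {v : Finset (E × StrongDual 𝕜 E)}
    {q0 q1 : E × StrongDual 𝕜 E} (h0 : q0 ∉ v) (h1 : q1 ∉ v) (h01 : q0 ≠ q1)
    (hu : Sys F φ C (insert q0 (insert q1 v))) :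
    rp q0 q1 ∉ insert (rm q0 q1) v ∧ rm q0 q1 ∉ v ∧
      Sys F φ C (insert (rp q0 q1) (insert (rm q0 q1) v)) ∧
      Y (insert q0 (insert q1 v)) ≤ Y (insert (rp q0 q1) (insert (rm q0 q1) v)) := by
  have m0 : q0 ∈ insert q0 (insert q1 v) := Finset.mem_insert_self _ _
  have m1 : q1 ∈ insert q0 (insert q1 v) := Finset.mem_insert_of_mem (Finset.mem_insert_self _ _)
  have mv : ∀ p ∈ v, p ∈ insert q0 (insert q1 v) := fun p hp =>
    Finset.mem_insert_of_mem (Finset.mem_insert_of_mem hp)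
  have a00 := hu.one q0 m0
  have a11 := hu.one q1 m1
  have a01 := hu.zero q0 m0 q1 m1 h01
  have a10 := hu.zero q1 m1 q0 m0 h01.symm
  have av0 : ∀ p ∈ v, p.2 q0.1 = 0 := fun p hp => hu.zero p (mv p hp) q0 m0 (fun h => h0 (h ▸ hp))
  have av1 : ∀ p ∈ v, p.2 q1.1 = 0 := fun p hp => hu.zero p (mv p hp) q1 m1 (fun h => h1 (h ▸ hp))
  have a0v : ∀ p ∈ v, q0.2 p.1 = 0 := fun p hp => hu.zero q0 m0 p (mv p hp) (fun h => h0 (h ▸ hp))
  have a1v : ∀ p ∈ v, q1.2 p.1 = 0 := fun p hp => hu.zero q1 m1 p (mv p hp) (fun h => h1 (h ▸ hp))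
  have bpp : (rp q0 q1).2 (rp q0 q1).1 = 1 := by
    simp only [rp, add_apply, smul_apply, map_add, map_smul, a00, a11, a01, a10, smul_eq_mul]
    norm_num
  have bmm : (rm q0 q1).2 (rm q0 q1).1 = 1 := by
    simp only [rm, sub_apply, smul_apply, map_sub, map_smul, a00, a11, a01, a10, smul_eq_mul]
    norm_num
  have bpm : (rp q0 q1).2 (rm q0 q1).1 = 0 := by
    simp only [rp, rm, add_apply, smul_apply, map_sub, map_smul, a00, a11, a01, a10, smul_eq_mul]
    norm_num
  have bmp : (rm q0 q1).2 (rp q0 q1).1 = 0 := by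
    simp only [rp, rm, sub_apply, smul_apply, map_add, map_smul, a00, a11, a01, a10, smul_eq_mul]
    norm_num
  have bvp : ∀ p ∈ v, p.2 (rp q0 q1).1 = 0 := fun p hp => by
    simp only [rp, map_add, map_smul, av0 p hp, av1 p hp, smul_zero, add_zero]
  have bvm : ∀ p ∈ v, p.2 (rm q0 q1).1 = 0 := fun p hp => by
    simp only [rm, map_sub, map_smul, av0 p hp, av1 p hp, smul_zero, sub_zero]
  have bpv : ∀ p ∈ v, (rp q0 q1).2 p.1 = 0 := fun p hp => by
    simp only [rp, add_apply, smul_apply, a0v p hp, a1v p hp, smul_zero, add_zero]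
  have bmv : ∀ p ∈ v, (rm q0 q1).2 p.1 = 0 := fun p hp => by
    simp only [rm, sub_apply, smul_apply, a0v p hp, a1v p hp, smul_zero, sub_zero]
  have hne : rp q0 q1 ≠ rm q0 q1 := by
    intro h
    have h2 := bpm
    rw [← h, bpp] at h2
    exact one_ne_zero h2
  have hpv : rp q0 q1 ∉ v := by
    intro h
    have h2 := bvp _ h
    rw [bpp] at h2
    exact one_ne_zero h2
  have hmv : rm q0 q1 ∉ v := by
    intro h
    have h2 := bvm _ h
    rw [bmm] at h2
    exact one_ne_zero h2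
  refine ⟨?_, hmv, ⟨?_, ?_, ?_, ?_⟩, ?_⟩
  · rw [Finset.mem_insert]
    rintro (h | h)
    · exact hne h
    · exact hpv h
  · intro p hp
    rcases Finset.mem_insert.1 hp with rfl | hp
    · exact bpp
    · rcases Finset.mem_insert.1 hp with rfl | hp
      · exact bmm
      · exact hu.one p (mv p hp)
  · intro p hp q hq hpq
    rcases Finset.mem_insert.1 hp with rfl | hp
    · rcases Finset.mem_insert.1 hq with rfl | hq
      · exact absurd rfl hpq
      · rcases Finset.mem_insert.1 hq with rfl | hq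
        · exact bpm
        · exact bpv q hq
    · rcases Finset.mem_insert.1 hp with rfl | hp
      · rcases Finset.mem_insert.1 hq with rfl | hq
        · exact bmp
        · rcases Finset.mem_insert.1 hq with rfl | hq
          · exact absurd rfl hpq
          · exact bmv q hq
      · rcases Finset.mem_insert.1 hq with rfl | hq
        · exact bvp p hp
        · rcases Finset.mem_insert.1 hq with rfl | hq
          · exact bvm p hp
          · exact hu.zero p (mv p hp) q (mv q hq) hpq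
  · intro p hp a ha
    rcases Finset.mem_insert.1 hp with rfl | hp
    · simp only [rp, add_apply, smul_apply, hu.van q0 m0 a ha, hu.van q1 m1 a ha, smul_zero,
        add_zero]
    · rcases Finset.mem_insert.1 hp with rfl | hp
      · simp only [rm, sub_apply, smul_apply, hu.van q0 m0 a ha, hu.van q1 m1 a ha, smul_zero,
          sub_zero]
      · exact hu.van p (mv p hp) a ha
  · intro n
    obtain ⟨f, hfC, hfF, hfu⟩ := hu.ext n
    refine ⟨f, hfC, hfF, fun p hp => ?_⟩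
    rcases Finset.mem_insert.1 hp with rfl | hp
    · simp only [rp, map_add, map_smul, hfu q0 m0, hfu q1 m1, smul_zero, add_zero]
    · rcases Finset.mem_insert.1 hp with rfl | hp
      · simp only [rm, map_sub, map_smul, hfu q0 m0, hfu q1 m1, smul_zero, sub_zero]
      · exact hfu p (mv p hp)
  · set w := insert (rp q0 q1) (insert (rm q0 q1) v) with hw
    have mp : (rp q0 q1).1 ∈ Y w := mem_Y (Finset.mem_insert_self _ _)
    have mm : (rm q0 q1).1 ∈ Y w := mem_Y (Finset.mem_insert_of_mem (Finset.mem_insert_self _ _))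
    rw [Y, Submodule.span_le]
    rintro _ ⟨p, hp, rfl⟩
    have hp' : p ∈ insert q0 (insert q1 v) := hp
    rcases Finset.mem_insert.1 hp' with rfl | hp'
    · have e : p.1 = (3 / 5 : 𝕜) • (rp p q1).1 + (4 / 5 : 𝕜) • (rm p q1).1 := by
        simp only [rp, rm, smul_add, smul_sub, smul_smul]
        module
      change p.1 ∈ Y w
      rw [e]
      exact (Y w).add_mem ((Y w).smul_mem _ mp) ((Y w).smul_mem _ mm)
    · rcases Finset.mem_insert.1 hp' with rfl | hp'
      · have e : p.1 = (4 / 5 : 𝕜) • (rp q0 p).1 - (3 / 5 : 𝕜) • (rm q0 p).1 := by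
          simp only [rp, rm, smul_add, smul_sub, smul_smul]
          module
        change p.1 ∈ Y w
        rw [e]
        exact (Y w).sub_mem ((Y w).smul_mem _ mp) ((Y w).smul_mem _ mm)
      · exact mem_Y (Finset.mem_insert_of_mem (Finset.mem_insert_of_mem hp'))

end Q41.BE
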