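import Mathlib
import Pool.Agent.Q41.BE.Mix

set_option autoImplicit false
set_option synthInstance.maxHeartbeats 400000

/-!
# Extending bounded minimal sequences: assembly
-/

namespace Q41.BE

open Filter Topology

variable {𝕜 E : Type*} [RCLike 𝕜] [NormedAddCommGroup E] [NormedSpace 𝕜 E]

/-- The data of the problem. -/
structure Data (F : Submodule 𝕜 E) (φ : ℕ → StrongDual 𝕜 E) (x : ℕ → E) (M B : ℝ) : Prop where
  closed : IsClosed (F : Set E)
  mem : ∀ n, x n ∈ F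
  off : ∀ i j, i ≠ j → φ i (x j) = 0
  on : ∀ i, φ i (x i) = 1
  one_le : 1 ≤ M
  bound : ∀ n, ‖φ n‖ ≤ M
  xbound : ∀ n, ‖x n‖ ≤ B
  lim : ∀ a ∈ F, Tendsto (fun n => φ n a) atTop (𝓝 0)

theorem mix {F : Submodule 𝕜 E} (S : Supply F) {φ : ℕ → StrongDual 𝕜 E}
    {x : ℕ → E} {M B : ℝ} (D : Data F φ x M B)
    [DecidableEq (E × StrongDual 𝕜 E)] (k : ℕ) :
    ∀ (u : Finset (E × StrongDual 𝕜 E)), Sys F φ (63 * M) u → ∀ q0 ∈ u, ∀ A : ℝ, 20 ≤ A →
      ‖q0.1‖ ≤ A → ‖q0.2‖ ≤ A →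
      ∃ u', u.erase q0 ⊆ u' ∧ Sys F φ (63 * M) u' ∧ Y u ≤ Y u' ∧
        ∀ p ∈ u', p ∉ u.erase q0 → ‖p.1‖ ≤ 20 + (4 / 5) ^ k * (A - 20) ∧
          ‖p.2‖ ≤ 20 + (4 / 5) ^ k * (A - 20) := by
  induction k with
  | zero =>
    intro u hu q0 hq0 A hA h1 h2
    refine ⟨u, Finset.erase_subset _ _, hu, le_rfl, fun p hp hp' => ?_⟩
    have : p = q0 := by
      by_contra hne
      exact hp' (Finset.mem_erase.2 ⟨hne, hp⟩)
    rw [this]
    constructor <;> linarith
  | succ k ih =>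
    intro u hu q0 hq0 A hA h1 h2
    obtain ⟨q1, hq1u, hu1, hn1, hn1'⟩ := good_step D.closed S D.mem D.off D.on D.one_le le_rfl
      D.bound D.xbound D.lim hu
    set v := u.erase q0 with hv
    have huv : insert q0 v = u := Finset.insert_erase hq0
    have h01 : q0 ≠ q1 := fun h => hq1u (h ▸ hq0)
    have hq0v : q0 ∉ v := Finset.notMem_erase _ _
    have hq1v : q1 ∉ v := fun h => hq1u (Finset.mem_of_mem_erase h)
    have hins : insert q1 u = insert q0 (insert q1 v) := by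
      rw [← huv, Finset.insert_comm]
    rw [hins] at hu1
    obtain ⟨c1, c2, hs, hY⟩ := mix_pair hq0v hq1v h01 hu1
    obtain ⟨np1, np2⟩ := norm_rp (q0 := q0) (q1 := q1) h1 h2 hn1 (by linarith)
    obtain ⟨nm1, nm2⟩ := norm_rm (q0 := q0) (q1 := q1) h1 h2 hn1 (by linarith)
    set A1 : ℝ := 4 / 5 * (A + 5) with hA1
    have hA1' : 20 ≤ A1 := by rw [hA1]; linarith
    have hbnd : 20 + (4 / 5 : ℝ) ^ k * (A1 - 20) = 20 + (4 / 5) ^ (k + 1) * (A - 20) := by
      rw [hA1, pow_succ]; ring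
    obtain ⟨u2, hu2s, hu2, hY2, hb2⟩ := ih _ hs (rp q0 q1) (Finset.mem_insert_self _ _) A1 hA1'
      np1 np2
    rw [Finset.erase_insert c1] at hu2s hb2
    have hm2 : rm q0 q1 ∈ u2 := hu2s (Finset.mem_insert_self _ _)
    obtain ⟨u3, hu3s, hu3, hY3, hb3⟩ := ih _ hu2 (rm q0 q1) hm2 A1 hA1' nm1 nm2
    refine ⟨u3, ?_, hu3, ?_, ?_⟩
    · intro p hp
      apply hu3s
      rw [Finset.mem_erase]
      exact ⟨fun h => c2 (h ▸ hp), hu2s (Finset.mem_insert_of_mem hp)⟩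
    · refine le_trans ?_ ((hY.trans hY2).trans hY3)
      apply Y_mono
      rw [← huv]
      exact Finset.insert_subset_insert _ (Finset.subset_insert _ _)
    · intro p hp hpv
      rw [← hbnd]
      by_cases hpe : p ∈ u2.erase (rm q0 q1)
      · obtain ⟨hne, hp2⟩ := Finset.mem_erase.1 hpe
        apply hb2 p hp2
        rw [Finset.mem_insert]
        rintro (h | h)
        · exact hne h
        · exact hpv h
      · exact hb3 p hp hpe

/-- Adding a vector to the closed span of a bounded system. -/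
theorem super_step {F : Submodule 𝕜 E} (S : Supply F) {φ : ℕ → StrongDual 𝕜 E}
    {x : ℕ → E} {M B : ℝ} (D : Data F φ x M B)
    [DecidableEq (E × StrongDual 𝕜 E)]
    {s : Finset (E × StrongDual 𝕜 E)} (hs : Sys F φ (63 * M) s)
    (hb : ∀ p ∈ s, ‖p.1‖ ≤ 21 ∧ ‖p.2‖ ≤ 21) (z : E) :
    ∃ s', s ⊆ s' ∧ Sys F φ (63 * M) s' ∧ (∀ p ∈ s', ‖p.1‖ ≤ 21 ∧ ‖p.2‖ ≤ 21) ∧ z ∈ F ⊔ Y s' := by
  by_cases hz : z ∈ F ⊔ Y s
  · exact ⟨s, subset_rfl, hs, hb, hz⟩
  · obtain ⟨q, hq, hu, hzu⟩ := bad_step D.closed D.mem D.off D.on D.one_le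
      (by linarith [D.one_le] : 3 * M ≤ 63 * M) D.bound D.lim hs hz
    set A : ℝ := max 20 (max ‖q.1‖ ‖q.2‖) with hA
    have hA1 : ‖q.1‖ ≤ A := (le_max_left _ _).trans (le_max_right _ _)
    have hA2 : ‖q.2‖ ≤ A := (le_max_right _ _).trans (le_max_right _ _)
    have hA0 : 20 ≤ A := le_max_left _ _
    obtain ⟨k, hk⟩ : ∃ k : ℕ, (4 / 5 : ℝ) ^ k * (A - 20) ≤ 1 := by
      have h1 : Tendsto (fun k : ℕ => (4 / 5 : ℝ) ^ k * (A - 20)) atTop (𝓝 (0 * (A - 20))) :=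
        (tendsto_pow_atTop_nhds_zero_of_lt_one (by norm_num) (by norm_num)).mul_const _
      rw [zero_mul] at h1
      exact (h1.eventually_le_const (by norm_num : (0 : ℝ) < 1)).exists
    obtain ⟨u', h1, h2, h3, h4⟩ := mix S D k _ hu q (Finset.mem_insert_self _ _) A hA0 hA1 hA2
    rw [Finset.erase_insert hq] at h1 h4
    refine ⟨u', h1, h2, fun p hp => ?_, sup_le_sup_left h3 F hzu⟩
    by_cases hps : p ∈ s
    · exact hb p hps
    · have := h4 p hp hps
      constructor <;> linarith [this.1, this.2]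

/-- The empty system. -/
theorem sys_empty {F : Submodule 𝕜 E} {φ : ℕ → StrongDual 𝕜 E}
    {x : ℕ → E} {M B : ℝ} (D : Data F φ x M B) : Sys F φ (63 * M) ∅ where
  one := fun p hp => absurd hp (Finset.notMem_empty _)
  zero := fun p hp => absurd hp (Finset.notMem_empty _)
  van := fun p hp => absurd hp (Finset.notMem_empty _)
  ext := fun n => ⟨φ n, (D.bound n).trans (by linarith [D.one_le]), fun _ _ => rfl,
    fun p hp => absurd hp (Finset.notMem_empty _)⟩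

/-- An increasing sequence of bounded systems with dense union. -/
theorem exists_seq [TopologicalSpace.SeparableSpace E] {F : Submodule 𝕜 E}
    {φ : ℕ → StrongDual 𝕜 E} {x : ℕ → E} {M B : ℝ} (D : Data F φ x M B) :
    ∃ (s : ℕ → Finset (E × StrongDual 𝕜 E)) (G : ℝ), Monotone s ∧
      (∀ j, Sys F φ (63 * M) (s j)) ∧ (∀ j, ∀ p ∈ s j, ‖p.1‖ ≤ G ∧ ‖p.2‖ ≤ G) ∧
      ∀ k, TopologicalSpace.denseSeq E k ∈ F ⊔ ⨆ j, Y (s j) := by
  classical
  by_cases hinf : ∀ Z : Submodule 𝕜 E, FiniteDimensional 𝕜 Z → F ⊔ Z ≠ ⊤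
  · obtain ⟨S⟩ := exists_supply F D.closed hinf
    let T := {s : Finset (E × StrongDual 𝕜 E) // Sys F φ (63 * M) s ∧
      ∀ p ∈ s, ‖p.1‖ ≤ 21 ∧ ‖p.2‖ ≤ 21}
    have hstep : ∀ (t : T) (z : E), ∃ t' : T, t.1 ⊆ t'.1 ∧ z ∈ F ⊔ Y t'.1 := by
      intro t z
      obtain ⟨s', h1, h2, h3, h4⟩ := super_step S D t.2.1 t.2.2 z
      exact ⟨⟨s', h2, h3⟩, h1, h4⟩
    choose nxt hn1 hn2 using hstep
    let seq : ℕ → T := fun n => Nat.rec ⟨∅, sys_empty D, fun p hp => absurd hp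
      (Finset.notMem_empty _)⟩ (fun n t => nxt t (TopologicalSpace.denseSeq E n)) n
    have hseq : ∀ n, seq (n + 1) = nxt (seq n) (TopologicalSpace.denseSeq E n) := fun n => rfl
    refine ⟨fun j => (seq j).1, 21, ?_, fun j => (seq j).2.1, fun j => (seq j).2.2, fun k => ?_⟩
    · apply monotone_nat_of_le_succ
      intro n
      rw [hseq]
      exact hn1 _ _
    · have h1 : TopologicalSpace.denseSeq E k ∈ F ⊔ Y (seq (k + 1)).1 := by
        rw [hseq]
        exact hn2 _ _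
      exact sup_le_sup_left (le_iSup (fun j => Y (seq j).1) (k + 1)) F h1
  · push Not at hinf
    obtain ⟨Z, hZ, hFZ⟩ := hinf
    obtain ⟨t, ht⟩ := (Submodule.fg_iff_finiteDimensional Z).2 hZ
    have hind : ∀ t : Finset E, ∃ u, Sys F φ (63 * M) u ∧ ∀ z ∈ t, z ∈ F ⊔ Y u := by
      intro t
      induction t using Finset.induction_on with
      | empty => exact ⟨∅, sys_empty D, fun z hz => absurd hz (Finset.notMem_empty _)⟩
      | insert z t _ ih =>
        obtain ⟨u, hu, hut⟩ := ih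
        by_cases hz : z ∈ F ⊔ Y u
        · refine ⟨u, hu, fun y hy => ?_⟩
          rcases Finset.mem_insert.1 hy with rfl | hy
          · exact hz
          · exact hut y hy
        · obtain ⟨q, hq, hu', hzu⟩ := bad_step D.closed D.mem D.off D.on D.one_le
            (by linarith [D.one_le] : 3 * M ≤ 63 * M) D.bound D.lim hu hz
          refine ⟨insert q u, hu', fun y hy => ?_⟩
          rcases Finset.mem_insert.1 hy with rfl | hy
          · exact hzu
          · exact sup_le_sup_left (Y_mono (Finset.subset_insert _ _)) F (hut y hy)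
    obtain ⟨u, hu, hut⟩ := hind t
    obtain ⟨G, hG⟩ : ∃ G : ℝ, ∀ p ∈ u, ‖p.1‖ ≤ G ∧ ‖p.2‖ ≤ G := by
      refine ⟨∑ p ∈ u, (‖p.1‖ + ‖p.2‖), fun p hp => ?_⟩
      have h1 : ‖p.1‖ + ‖p.2‖ ≤ ∑ p ∈ u, (‖p.1‖ + ‖p.2‖) :=
        Finset.single_le_sum (f := fun p : E × StrongDual 𝕜 E => ‖p.1‖ + ‖p.2‖)
          (fun p _ => by positivity) hp
      constructor <;> linarith [norm_nonneg p.1, norm_nonneg p.2]
    refine ⟨fun _ => u, G, monotone_const, fun _ => hu, fun _ => hG, fun k => ?_⟩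
    have h1 : F ⊔ Z ≤ F ⊔ Y u := by
      apply sup_le le_sup_left
      rw [← ht, Submodule.span_le]
      exact hut
    rw [hFZ] at h1
    exact sup_le_sup_left (le_iSup (fun _ : ℕ => Y u) 0) F (h1 Submodule.mem_top)

end Q41.BE
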